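import Pool.Agent.Helper59.OT.Num

/-!
# The first coordinate is injective on the lattice; multiplicative independence of the units
(part of piece LAT of MP_398e1f_an)
-/

open scoped Manifold ContDiff Topology
open Set Filter Polynomial

noncomputable section

namespace Pool.Agent.Helper77.OTLat

open HolPH.OT (rho rho_pow)

theorem two_not_pow (b : ℚ) : b ^ 5 ≠ 2 := by
  intro h
  have hb : b ≠ 0 := by
    rintro rfl
    norm_num at h
  have : Fact (Nat.Prime 2) := ⟨Nat.prime_two⟩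
  have h1 := congrArg (padicValRat 2) h
  rw [padicValRat.pow] at h1
  have h2 : padicValRat 2 (2 : ℚ) = 1 := by
    have := padicValRat.self (p := 2) (by norm_num)
    exact_mod_cast this
  rw [h2] at h1
  push_cast at h1
  omega

theorem irr : Irreducible (X ^ 5 - C 2 : ℚ[X]) :=
  X_pow_sub_C_irreducible_of_prime (by norm_num) two_not_pow

theorem minpoly_rho : minpoly ℚ rho = (X ^ 5 - C 2 : ℚ[X]) := by
  symm
  apply minpoly.eq_of_irreducible_of_monic irr
  · simp only [map_sub, map_pow, aeval_X, aeval_C]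
    rw [rho_pow]
    simp
  · exact monic_X_pow_sub_C 2 (by norm_num)

theorem coeffs_zero {c : Fin 5 → ℤ}
    (h : (c 0 : ℝ) + c 1 * rho + c 2 * rho ^ 2 + c 3 * rho ^ 3 + c 4 * rho ^ 4 = 0) :
    ∀ i, c i = 0 := by
  set p : ℚ[X] := C (c 0 : ℚ) + C (c 1 : ℚ) * X + C (c 2 : ℚ) * X ^ 2 + C (c 3 : ℚ) * X ^ 3
    + C (c 4 : ℚ) * X ^ 4 with hp
  have hroot : aeval rho p = 0 := by
    rw [hp]
    simp only [map_add, map_mul, map_pow, aeval_X, aeval_C]
    have : ∀ n : ℤ, (algebraMap ℚ ℝ) (n : ℚ) = (n : ℝ) := fun n => by simp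
    rw [this, this, this, this, this]
    exact h
  have hp0 : p = 0 := by
    by_contra hne
    have h1 := minpoly.degree_le_of_ne_zero ℚ rho hne hroot
    rw [minpoly_rho, degree_X_pow_sub_C (by norm_num)] at h1
    have h2 : degree p ≤ 4 := by
      rw [hp]
      compute_degree
    have h3 : ((5 : ℕ) : WithBot ℕ) ≤ ((4 : ℕ) : WithBot ℕ) := h1.trans h2
    have h4 : 5 ≤ 4 := by exact_mod_cast h3
    omega
  have hc : ∀ k, p.coeff k = 0 := fun k => by rw [hp0, coeff_zero]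
  have e0 := hc 0
  have e1 := hc 1
  have e2 := hc 2
  have e3 := hc 3
  have e4 := hc 4
  simp only [hp, coeff_add, coeff_C_mul, coeff_X_pow, coeff_X, coeff_C] at e0 e1 e2 e3 e4
  norm_num at e0 e1 e2 e3 e4
  intro i
  fin_cases i
  · exact e0
  · exact e1
  · exact e2
  · exact e3
  · exact e4

end Pool.Agent.Helper77.OTLat

namespace HolPH.OT

open Pool.Agent.Helper77.OTLat

/-- irreducibility of `X ^ 5 - 2` -/
theorem Lat_fst_inj {x : C3} (hx : x ∈ Lat) (h : x.1 = 0) : x = 0 := by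
  obtain ⟨c, rfl⟩ := mem_Lat.1 hx
  have h1 : ((c 0 : ℝ) + c 1 * rho + c 2 * rho ^ 2 + c 3 * rho ^ 3 + c 4 * rho ^ 4) = 0 := by
    have h2 : ((((c 0 : ℝ) + c 1 * rho + c 2 * rho ^ 2 + c 3 * rho ^ 3 + c 4 * rho ^ 4) : ℝ) : ℂ)
        = ((0 : ℝ) : ℂ) := by
      rw [Complex.ofReal_zero, ← h]
      simp only [Fin.sum_univ_five, theta]
      simp
    exact_mod_cast h2
  have hc := coeffs_zero h1
  simp [hc]

theorem one_mem_Lat : (1 : C3) ∈ Lat := by
  refine mem_Lat.2 ⟨![1, 0, 0, 0, 0], ?_⟩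
  simp [Fin.sum_univ_five]

/-- `log v₁ / log u₁` is irrational. -/
theorem V1_zpow_ne {m k : ℤ} (h : V1 ^ m = U1 ^ k) : m = 0 ∧ k = 0 := by
  have hv : ((v ^ m : C3ˣ) : C3) ∈ Lat := by
    have := v_zpow_mul_mem m one_mem_Lat
    rwa [mul_one] at this
  have hu : ((u ^ k : C3ˣ) : C3) ∈ Lat := by
    have := u_zpow_mul_mem k one_mem_Lat
    rwa [mul_one] at this
  have hz : ((v ^ m : C3ˣ) : C3) - ((u ^ k : C3ˣ) : C3) = 0 := by
    apply Lat_fst_inj (sub_mem hv hu)
    rw [Prod.fst_sub, v_zpow_fst, u_zpow_fst, h, sub_self]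
  have heq : ((v ^ m : C3ˣ) : C3) = ((u ^ k : C3ˣ) : C3) := sub_eq_zero.1 hz
  have h2 : V2 ^ m = U2 ^ k := by
    have h3 := congrArg (fun x : C3 => ‖x.2.1‖) heq
    rw [zpow_snd_fst, zpow_snd_fst, norm_zpow, norm_zpow] at h3
    exact h3
  have h4 : lam ^ m = 1 := by
    have e1 : (V1 ^ al2) ^ m = (U1 ^ al2) ^ k := by
      rw [← Real.rpow_intCast, ← Real.rpow_intCast, ← Real.rpow_mul V1_pos.le,
        ← Real.rpow_mul U1_pos.le, mul_comm, mul_comm al2, Real.rpow_mul V1_pos.le,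
        Real.rpow_mul U1_pos.le, Real.rpow_intCast, Real.rpow_intCast, h]
    rw [lam, mul_zpow, e1, h2, ← mul_zpow, U1_al2, one_zpow]
  have hm : m = 0 := by
    by_contra hne
    rcases lt_or_gt_of_ne hne with hlt | hgt
    · have := one_lt_zpow_of_neg₀ lam_pos lam_lt_one hlt
      linarith
    · have := zpow_lt_one₀ lam_pos lam_lt_one hgt
      linarith
  refine ⟨hm, ?_⟩
  rw [hm, zpow_zero] at h
  by_contra hne
  rcases lt_or_gt_of_ne hne with hlt | hgt
  · have h5 := zpow_lt_zpow_right₀ one_lt_U1 hlt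
    rw [zpow_zero] at h5
    linarith
  · have h5 := zpow_lt_zpow_right₀ one_lt_U1 hgt
    rw [zpow_zero] at h5
    linarith

end HolPH.OT
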